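import Pool.Agent.U308.TL.Pair1
import Pool.Agent.U308.TL.Mult
import Pool.Agent.N469.GG.Deg

set_option autoImplicit false

/-! Almost all smooth vertices of the Goldbach graphs have many neighbours (adapted from the starting file
`Pool.Agent.N469.GG.Deg`). -/

namespace Pool.Agent.U308.GG
open Finset
open Pool.Agent.H373R2.T7
open Pool.Agent.W93.TD (HLs)
open Pool.Agent.W93.PG (WinP cnt)
open Pool.Agent.N469.GG
open Pool.Agent.U308.TL (Cond2)
open Pool.Agent.N469.SM (SS mem_SS one_mem_SS SS_mono card_SS_le card_SS_pos)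

theorem core2 (μ : ℤ) (hμ : μ ≠ 0) (Kp Bc A U : ℕ) (c₁ : ℝ) (n₁ : ℕ) (δ : ℝ) (hδ : 0 < δ)
    (hdeg : ∀ n : ℕ, n₁ ≤ n →
      (c₁ * (n / Real.log n ^ 2) ≤ ((Nb n 0).card : ℝ)) ∧
      (∀ U a : ℕ, Even a → 2 ≤ a → a ≤ n → HLs (1 / 2) U (n / 2) (fun _ : Fin 1 => a) → c₁ * (n / Real.log n ^ 2) ≤ ((Nb n a).card : ℝ)) ∧
      (∀ a : ℕ, Even a → n < a → a ≤ 2 * n → WinP (1 / 2) 1 a → c₁ * (n / Real.log n ^ 2) ≤ ((Nb n a).card : ℝ))) :
    ∃ N₀ : ℕ, ∀ N, N₀ ≤ N → ∀ P y, Cond2 δ Kp N P y → ∀ E : ℕ → Prop, ∀ _ : DecidablePred E,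
    (∃ (cc : ℤ) (n : ℕ), |cc| ≤ Bc * N ∧ N = 2 * n ∧ ∀ v, E v → ∃ a : ℕ, |(((a : ℤ) - (cc + μ * (v : ℤ)) : ℤ) : ℝ)| ≤ Real.log N ^ A ∧
      Even a ∧ a ≤ 2 * n ∧ ((Nb n a).card : ℝ) < c₁ * (n / Real.log n ^ 2)) →
    ∑ v ∈ SS P N, (if E v then 1 / ((SS P N).card : ℝ) else 0) ≤ 1 / Real.log N ^ U := by
  classical
  obtain ⟨N1, h1⟩ := Pool.Agent.U308.TL.sm_pair12 μ hμ Kp Bc 5 A (U + 1) (1 / 2) (by norm_num) δ hδ
  obtain ⟨N2, h2⟩ := Pool.Agent.U308.TL.sm_windows2 μ hμ Kp Bc 1 A (U + 1) 0 (1 / 2) (by norm_num) (fun m => WinP (1 / 2) 1 m)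
    (fun m _ _ h => h) δ hδ
  obtain ⟨N3, h3⟩ := ev_L' 2
  refine ⟨N1 + N2 + N3 + 2 * n₁ + 16, fun N hN P y hP E _ hE => ?_⟩
  obtain ⟨cc, n, hcc, hNn, hbad⟩ := hE
  have hL := h3 N (by omega)
  have hL0 : 0 < Real.log N := by linarith
  obtain ⟨d0, d1, d2⟩ := hdeg n (by omega)
  have k1 := h1 N (by omega) P y hP (fun v : ℕ => ∃ r : ℤ, |(r : ℝ)| ≤ Real.log N ^ A ∧ 0 < cc + μ * (v : ℤ) + r ∧
      ¬ HLs (1 / 2) (U + 1 + A + 3) (n / 2) (fun _ : Fin 1 => (cc + μ * (v : ℤ) + r).toNat)) (Classical.decPred _)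
    ⟨cc, n / 2, hcc, by omega, by omega, fun v hv => hv⟩
  have k2 := h2 N (by omega) P y hP (fun v : ℕ => ∃ r : ℤ, |(r : ℝ)| ≤ Real.log N ^ A ∧ 0 < cc + μ * (v : ℤ) + r ∧
      2 ∣ cc + μ * (v : ℤ) + r ∧ ¬ WinP (1 / 2) 1 (cc + μ * (v : ℤ) + r).toNat) (Classical.decPred _)
    ⟨cc, hcc, fun v hv => hv⟩
  have hp0 : (0 : ℝ) ≤ 1 / ((SS P N).card : ℝ) := by positivity
  have hsum : ∑ v ∈ SS P N, (if E v then 1 / ((SS P N).card : ℝ) else 0) ≤ 1 / Real.log N ^ (U + 1) + 1 / Real.log N ^ (U + 1) := by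
    refine le_trans ?_ (add_le_add k1 k2)
    rw [← sum_add_distrib]
    apply sum_le_sum
    intro v _
    by_cases hv : E v
    · rw [if_pos hv]
      obtain ⟨a, ha1, ha2, ha3, ha4⟩ := hbad v hv
      have hr : cc + μ * (v : ℤ) + ((a : ℤ) - (cc + μ * (v : ℤ))) = a := by ring
      have hcase : (∃ r : ℤ, |(r : ℝ)| ≤ Real.log N ^ A ∧ 0 < cc + μ * (v : ℤ) + r ∧
            ¬ HLs (1 / 2) (U + 1 + A + 3) (n / 2) (fun _ : Fin 1 => (cc + μ * (v : ℤ) + r).toNat)) ∨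
          (∃ r : ℤ, |(r : ℝ)| ≤ Real.log N ^ A ∧ 0 < cc + μ * (v : ℤ) + r ∧
            2 ∣ cc + μ * (v : ℤ) + r ∧ ¬ WinP (1 / 2) 1 (cc + μ * (v : ℤ) + r).toNat) := by
        rcases Nat.eq_zero_or_pos a with h0 | h0
        · exfalso
          rw [h0] at ha4
          linarith
        obtain ⟨k, hk⟩ := ha2
        rcases le_or_gt a n with h5 | h5
        · left
          refine ⟨(a : ℤ) - (cc + μ * (v : ℤ)), ha1, ?_, ?_⟩
          · rw [hr]
            exact_mod_cast h0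
          · rw [hr, Int.toNat_natCast]
            intro hls
            have := d1 _ a ⟨k, hk⟩ (by omega) h5 hls
            linarith
        · right
          refine ⟨(a : ℤ) - (cc + μ * (v : ℤ)), ha1, ?_, ?_, ?_⟩
          · rw [hr]
            exact_mod_cast h0
          · rw [hr]
            omega
          · rw [hr, Int.toNat_natCast]
            intro hw
            have := d2 a ⟨k, hk⟩ h5 ha3 hw
            linarith
      rcases hcase with h | h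
      · rw [if_pos h]
        have : (0 : ℝ) ≤ if (∃ r : ℤ, |(r : ℝ)| ≤ Real.log N ^ A ∧ 0 < cc + μ * (v : ℤ) + r ∧
            2 ∣ cc + μ * (v : ℤ) + r ∧ ¬ WinP (1 / 2) 1 (cc + μ * (v : ℤ) + r).toNat) then 1 / ((SS P N).card : ℝ) else 0 := by
          split_ifs
          · exact hp0
          · exact le_rfl
        linarith
      · rw [if_pos h]
        have : (0 : ℝ) ≤ if (∃ r : ℤ, |(r : ℝ)| ≤ Real.log N ^ A ∧ 0 < cc + μ * (v : ℤ) + r ∧
            ¬ HLs (1 / 2) (U + 1 + A + 3) (n / 2) (fun _ : Fin 1 => (cc + μ * (v : ℤ) + r).toNat)) then 1 / ((SS P N).card : ℝ) else 0 := by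
          split_ifs
          · exact hp0
          · exact le_rfl
        linarith
    · rw [if_neg hv]
      apply add_nonneg
      · split_ifs
        · exact hp0
        · exact le_rfl
      · split_ifs
        · exact hp0
        · exact le_rfl
  refine hsum.trans ?_
  rw [← add_div, div_le_div_iff₀ (by positivity) (by positivity), pow_succ]
  have : 0 < Real.log N ^ U := by positivity
  nlinarith

end Pool.Agent.U308.GG
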